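import Pool.Agent.TH5.HL.Main

/-!
# When does the Hodge coniveau of products of varieties of CM type split?

Let `H j` (`j` in a finite set `J`) be rational Hodge structures with multiplication by number
fields `E j` of degree `dim H j`: pieces of the cohomology groups of smooth projective varieties
`X j` of CM type, for example `H^1` of an abelian variety with complex multiplication, the
transcendental lattice of a K3 surface with complex multiplication, pieces of the cohomology of
Fermat varieties.  `H j` is the dual of the rational vector space `E j`; the linear forms
given by the embeddings `σ` of `E j` in `ℂ` span `H j` over `ℂ`, and the form given by `σ` has type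
`(p, q)` with `q = q j σ` and `p = q j (conjEmb σ)`.

Let the indices be divided into groups, `γ : J → I` (for example the isogeny classes).
The elements of the tensor products of the `H j` are the rational multilinear forms in variables
`x k ∈ E (t k)`.  A rational class has Hodge coniveau at least `c` if it is contained in the sum of
the parts of types `(p, q)` with `p ≥ c`, `q ≥ c`; the classes of coniveau at least `1`
are those without components of types `(i, 0)` and `(0, i)`.  If `Y` is a smooth projective variety
with `h^(i, 0)(Y) = 0` whose cohomology `H^i(Y)` is a piece of the cohomology of
products of the `X j`, for example a quotient of a product by a finite group, then all classes in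
`H^i(Y)` have Hodge coniveau at least `1` and the question is whether they vanish on a dense open
subset, which is clear for an external product with one factor that vanishes on a dense open
subset.

(1) All rational classes of Hodge coniveau at least `1` in all tensor products of the `H j` are
combinations of external products of rational classes of the groups with one factor of
Hodge coniveau at least `1`, **if and only if** the fields generated, for every group `i`, by the
traces `∑ σ, σ z` over the `σ` with `q j σ = 0` (the trace of `z` on the holomorphic forms
`H j^(w, 0)`), `z ∈ E j`, `j` in the group `i`, are linearly disjoint over `ℚ` (the degree of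
their compositum is the product of the degrees).

(2) For all `c`, all rational classes of Hodge coniveau at least `c` in all tensor products of the
`H j` are combinations of external products of rational classes of the groups of Hodge coniveaus at
least `m i` with `∑ m i ≥ c`, **if and only if** the reflex fields of the groups, generated by
the `∑ σ, q j σ * σ z`, are linearly disjoint over `ℚ`.

There is no condition on the fields `E j`, which may be any number fields, or on the numbers
`q j σ`.  `HodgeConiveauGE`, `IsExternalProductOfConiveau`, `ConiveauSplits` are defined in
`Pool/Agent/TH5/HL/Coniveau.lean`, `traceField`, `TraceFieldsDisjoint` in
`Pool/Agent/TH5/HL/Fields.lean`.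
-/

set_option autoImplicit false

namespace Pool.Agent.Results.MP_1c689d_ag.ConiveauSplitting

open Pool.Agent.TH5.HL

theorem result {I J : Type} [Fintype I] [DecidableEq I] [Finite J] {E : J → Type}
    [∀ j, Field (E j)] [∀ j, NumberField (E j)] (q : ∀ j, (E j →ₐ[ℚ] ℂ) → ℕ) (γ : J → I) :
    (ConiveauSplits q γ 1 ↔ TraceFieldsDisjoint (fun j σ => if q j σ = 0 then 1 else 0) γ) ∧
    ((∀ c, ConiveauSplits q γ c) ↔ TraceFieldsDisjoint q γ) :=
  ⟨splits_one_iff q γ, splits_all_iff q γ⟩

end Pool.Agent.Results.MP_1c689d_ag.ConiveauSplitting
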