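import Pool.Agent.TH540.SavChen3

/-!
# The coniveau of the cohomology of Fermat hypersurfaces of large dimension

Let `X` be the Fermat hypersurface `x_1 ^ m + ... + x_n ^ m = 0` of dimension `n - 2` over the complex
numbers. Its primitive cohomology is the sum of lines `V(a)`, where `a : Fin n → ZMod m` has nonzero
values and sum zero (`IsCharacter`). The line has Hodge type `(p, n - 2 - p)` (or `(n - 2 - p, p)`,
depending on conventions) if `height m n a = m * (p + 1)`. The smallest rational Hodge substructure
`W(a)` whose complexification contains `V(a)` is the sum of the lines `V(t a)`, `t` a unit. If the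
index set is a union of `c + 1` nonempty blocks on which `a` has sum zero then, by Shioda and Katsura,
`W(a)` comes from a product of `c + 1` Fermat varieties of total dimension `n - 2 - 2 c` and is supported
in codimension `c`.

The theorem says that for `2 n ≥ (2 c - 1) m + 3` the following are equivalent: the Hodge number
`h ^ {c - 1, n - 1 - c}` of `W(a)` is zero; `W(a)` has Hodge coniveau at least `c`; the index set is such a
union of `c + 1` blocks (so `W(a)` is supported in codimension `c`).
-/

namespace Pool.Agent.Results.MP_1c689d_ag.FermatConiveau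

/-- `a` is a character of the primitive cohomology of the Fermat hypersurface of degree `m` in `n`
variables. -/
def IsCharacter (m n : ℕ) (a : Fin n → ZMod m) : Prop := (∀ i, a i ≠ 0) ∧ ∑ i, a i = 0

/-- The sum of the representatives in `{1, ..., m - 1}`. -/
def height (m n : ℕ) (a : Fin n → ZMod m) : ℕ := ∑ i, (a i).val

/-- The index set is a union of `k` nonempty disjoint blocks on which `a` has sum zero. -/
def HasBlocks (m n k : ℕ) (a : Fin n → ZMod m) : Prop :=
  ∃ f : Fin n → ℕ, (∀ i, f i < k) ∧ ∀ j < k, (∃ i, f i = j) ∧ ∑ i with f i = j, a i = 0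

theorem result (m n c : ℕ) (hm : 1 ≤ m) (hc : 1 ≤ c) (hn : (2 * c - 1) * m + 3 ≤ 2 * n)
    (a : Fin n → ZMod m) (ha : IsCharacter m n a) :
    List.TFAE [
      ∀ t : (ZMod m)ˣ, height m n (fun i => (t : ZMod m) * a i) ≠ m * c,
      ∀ t : (ZMod m)ˣ, m * (c + 1) ≤ height m n (fun i => (t : ZMod m) * a i),
      HasBlocks m n (c + 1) a] := by
  have hz : NeZero m := ⟨by omega⟩
  obtain ⟨h1, h2⟩ := ha
  tfae_have 1 → 3 := by
    intro h
    rcases TH540.SC.blocks hc hn h1 h2 with ⟨f, f1, f2⟩ | ⟨t, ht⟩
    · exact ⟨f, fun i => Nat.lt_succ_of_le (f1 i), fun j hj => f2 j (Nat.le_of_lt_succ hj)⟩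
    · exact absurd ht (h t)
  tfae_have 3 → 2 := by
    rintro ⟨f, f1, f2⟩ t
    refine TH540.SC.blocks_height (c := c) (a := fun i => (t : ZMod m) * a i) ?_ f
      (fun i => Nat.le_of_lt_succ (f1 i)) ?_
    · intro i hi
      apply h1 i
      have : (t : ZMod m) * a i = (t : ZMod m) * 0 := by rw [hi, mul_zero]
      exact (Units.mul_right_inj t).mp this
    · intro j hj
      obtain ⟨g1, g2⟩ := f2 j (Nat.lt_succ_of_le hj)
      refine ⟨g1, ?_⟩
      rw [← Finset.mul_sum, g2, mul_zero]
  tfae_have 2 → 1 := by
    intro h t ht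
    have h3 := h t
    rw [ht, mul_add, mul_one] at h3
    omega
  tfae_finish

end Pool.Agent.Results.MP_1c689d_ag.FermatConiveau
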