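import Pool.Agent.TH540.GHC

/-!
# The generalized Hodge conjecture for varieties dominated by products of Fermat varieties

Let `X` be the complex Fermat variety of degree `m` and dimension `i`. The primitive part of
`H ^ i (X, ℂ)` splits into eigenlines `V(s)`, indexed by the lists `s` of `i + 2` nonzero residues
modulo `m` with sum zero. If the representatives of `s` in `{1, ..., m - 1}` have sum `m * (q + 1)`,
then `V(s)` has Hodge type `(q, i - q)` or `(i - q, q)`, depending on conventions, and the Galois
group permutes the `V(t * s)`, `t` a unit modulo `m`. So `Level m ν s` says that the rational Hodge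
structure spanned by `V(s)` has level at most `i - 2 * ν`.

By Shioda and Katsura `V(e + e') = V(e) ⊗ V(e') (-1)` through algebraic correspondences. So
`ProductOfCurves m ν s` says that `V(s)`, twisted by `ν`, is a tensor product of `i - 2 * ν`
eigenlines in the first cohomology groups of Fermat curves, through algebraic correspondences; in
particular `V(s)` is supported on a closed subset of codimension at least `ν`.

We prove that `Level` implies `ProductOfCurves`, for all `s` and `ν`, if `m` is one of
`3, ..., 12, 14, 15, 16, 18, 20, 21, 22, 24, 30, 36, 42`. As tensor products of eigenlines are again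
eigenlines `V(s)` up to a twist, this gives the generalized Hodge conjecture for all products of
Fermat varieties of such a degree, and for all varieties dominated by such products. Moreover it
holds for the divisors of all degrees for which the Hodge conjecture for Fermat varieties is known
and for which every type of complex multiplication of the field of `m`-th roots of unity is that of
an eigenline of the Fermat curve.
-/

namespace Pool.Agent.Results.MP_1c689d_ag.FermatGHC

open Pool.Agent.H916R2

/-- For every unit `t` modulo `m` the representatives in `{1, ..., m - 1}` of the residues `t * a`,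
`a ∈ s`, have sum at least `m * (ν + 1)`. -/
def Level (m ν : ℕ) (s : Multiset (ZMod m)) : Prop :=
  ∀ t : (ZMod m)ˣ, m * (ν + 1) ≤ (s.map fun a => ((t : ZMod m) * a).val).sum

/-- There are a positive integer `N` and `|s| - 2 - 2 * ν` triples of nonzero residues modulo
`N * m`, each with sum zero, such that `N * s` together with the negatives of the entries of these
triples is a member of the closure of the Hodge characters of Fermat surfaces and of the standard
characters of Aoki and Shioda in degree `N * m`. -/
def ProductOfCurves (m ν : ℕ) (s : Multiset (ZMod m)) : Prop :=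
  ∃ N : ℕ, 0 < N ∧ ∃ E : Multiset (Multiset (ZMod (N * m))),
    (∀ e ∈ E, (0 : ZMod (N * m)) ∉ e ∧ e.sum = 0 ∧ Multiset.card e = 3) ∧
    Multiset.card E + 2 * ν + 2 = Multiset.card s ∧
    Generated (N * m) (SurfaceCharacter (N * m))
      ((s.map fun a => ((N * a.val : ℕ) : ZMod (N * m))) + E.join.map Neg.neg)

/-- The generalized Hodge conjecture for the Fermat varieties of degree `m`. -/
def GHC (m : ℕ) : Prop := ∀ (ν : ℕ) (s : Multiset (ZMod m)), (0 : ZMod m) ∉ s → s.sum = 0 →
  Level m ν s → ProductOfCurves m ν s

/-- Every function `φ` on the units modulo `m` with values `0` and `1` and `φ (-t) + φ t = 1` is the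
type of an eigenline of the Fermat curve of degree `m`. -/
def AllTypes (m : ℕ) : Prop := ∀ φ : (ZMod m)ˣ → ℕ, (∀ t, φ (-t) + φ t = 1) →
  ∃ x y z : ZMod m, x ≠ 0 ∧ y ≠ 0 ∧ z ≠ 0 ∧ x + y + z = 0 ∧ ∀ t : (ZMod m)ˣ,
    ((t : ZMod m) * x).val + ((t : ZMod m) * y).val + ((t : ZMod m) * z).val = m * (φ t + 1)

lemma coprime_of_one {p m : ℕ} (h : (p : ZMod m) = 1) : p.Coprime m := by
  rw [← ZMod.isUnit_iff_coprime, h]
  exact isUnit_one

lemma curves_of_all {p m : ℕ} [NeZero m] (hp : (p : ZMod m) = 1) (h : AllTypes m) :
    TH540.Curves p m := by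
  intro φ hb hpar hneg _
  have hf : orderOf (p : ZMod m) = 1 := by rw [hp, orderOf_one]
  rw [hf] at hb hpar
  have hg : ∀ t, (2 : ℤ) * (((φ t + 1) / 2).toNat : ℤ) = φ t + 1 := by
    intro t
    have a1 := hb t
    have a2 := hpar t
    rw [abs_le] at a1
    push_cast at a1 a2
    omega
  obtain ⟨x, y, z, hx, hy, hz, hs, H⟩ := h (fun t => ((φ t + 1) / 2).toNat) (by
      intro t
      have a1 := hg t
      have a2 := hg (-t)
      have a3 := hneg t
      omega)
  refine ⟨x, y, z, hx, hy, hz, hs, fun t => ?_⟩
  have hW : ∀ a : ZMod m, a ≠ 0 → H916T.W p ((t : ZMod m) * a) =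
      2 * ((((t : ZMod m) * a).val : ℕ) : ℤ) - m := by
    intro a ha
    unfold H916T.W
    rw [hf]
    simp only [Finset.sum_range_one, pow_zero, one_mul]
    apply saw_of_ne_zero
    intro h0
    exact ha ((t.isUnit.mul_right_eq_zero).mp h0)
  rw [hW x hx, hW y hy, hW z hz]
  have h1 := H t
  have h2 := congrArg (Nat.cast : ℕ → ℤ) h1
  simp only [Nat.cast_add, Nat.cast_mul, Nat.cast_one] at h2
  have h3 := hg t
  have h4 : φ t = 2 * (((φ t + 1) / 2).toNat : ℤ) - 1 := by omega
  rw [h4]
  linear_combination 2 * h2

theorem ghc_of {m k : ℕ} [NeZero m] (hm3 : 3 ≤ k * m) (hgood : GoodDegree (k * m))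
    (hC : ∀ p : ℕ, p.Prime → (p : ZMod (k * m)) = 1 → TH540.Curves p (k * m)) : GHC m := by
  intro ν s h0 hs hG
  have hz : NeZero (k * m) := ⟨by omega⟩
  have hk : 0 < k := Nat.pos_of_ne_zero (by rintro rfl; omega)
  obtain ⟨w, hw, hW⟩ := TH540.hodge_bound h0 hG
  have hne : s ≠ 0 := by rintro rfl; simp at hw
  obtain ⟨E, e1, e2, e3⟩ := TH540.exists_triples hm3 hC
    (s := s.map (iota k : ZMod m → ZMod (k * m))) (w := w) (by
      intro h
      obtain ⟨b, hb, hb0⟩ := Multiset.mem_map.mp h
      rw [iota_eq_zero rfl hb0] at hb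
      exact h0 hb) (by rw [H916Z.sum_iota rfl, hs, iota_zero])
    (by rw [Multiset.card_map, ← hw]; exact ⟨w + ν + 1, by ring⟩) (TH540.St_iota rfl s hW)
  refine ⟨k, hk, E, e2, by rw [e1, hw], ?_⟩
  refine Families.main (k * m) (by omega) hgood _ e3 ?_
  intro h
  rw [← Multiset.card_eq_zero, Multiset.card_add, Multiset.card_map] at h
  exact hne (Multiset.card_eq_zero.mp (by omega))

theorem result :
    (∀ m ∈ [3, 4, 5, 6, 7, 8, 9, 10, 11, 12, 14, 15, 16, 18, 20, 21, 22, 24, 30, 36, 42], GHC m) ∧
    (∀ m k : ℕ, 3 ≤ k * m → GoodDegree (k * m) → AllTypes (k * m) → GHC m) := by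
  refine ⟨fun m hm => ?_, fun m k hm3 hgood hall => ?_⟩
  · obtain ⟨k, hk⟩ : ∃ k : ℕ, k * m ∈ TH540.listA := by
      simp only [List.mem_cons, List.not_mem_nil, or_false] at hm
      simp only [TH540.listA, List.mem_cons, List.not_mem_nil, or_false]
      by_cases h : m = 11 ∨ m = 21
      · exact ⟨2, by omega⟩
      · exact ⟨1, by omega⟩
    have hm3 : 3 ≤ k * m := by
      simp only [TH540.listA, List.mem_cons, List.not_mem_nil, or_false] at hk
      omega
    have h1 : NeZero m := ⟨by rintro rfl; omega⟩
    have h2 : NeZero (k * m) := ⟨by omega⟩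
    exact ghc_of hm3 (TH540.good_list hk) fun p _ hp1 =>
      TH540.curves_list hk (coprime_of_one hp1)
  · have h1 : NeZero m := ⟨by rintro rfl; omega⟩
    have h2 : NeZero (k * m) := ⟨by omega⟩
    exact ghc_of hm3 hgood fun p _ hp1 => curves_of_all hp1 hall

end Pool.Agent.Results.MP_1c689d_ag.FermatGHC
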